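import Pool.Agent.H98.EX.LTargets

/-!
# The exact constant of the copolymer slope as `α → 1`: CNX, the number of the pairs
(helper13, row CNX)
-/

set_option autoImplicit false

open Pool.Agent.H98.EX

namespace Pool.Agent.H13.EX

theorem pf_CNX : T_CNX := by
  classical
  intro β ζ ϑ n R D j hβ hϑ hζ hζ4 hD hg hn
  have hj : (0 : ℝ) ≤ j := Nat.cast_nonneg j
  have hlo : 0 < 4 * β * ((j : ℝ) + ζ) / ϑ := by positivity
  have hhi : 4 * β * ((j : ℝ) + 1 - ζ) / ϑ ≤ D := by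
    refine le_trans ?_ hD
    apply div_le_div_of_nonneg_right _ hϑ.le
    nlinarith
  have h1 : 4 * β * ((j : ℝ) + 1 - ζ) / ϑ - 4 * β * ((j : ℝ) + ζ) / ϑ =
      4 * β * (1 - 2 * ζ) / ϑ := by ring
  have hhi0 : 0 < 4 * β * ((j : ℝ) + 1 - ζ) / ϑ := by linarith
  unfold WS
  generalize 4 * β * ((j : ℝ) + ζ) / ϑ = lo at *
  generalize 4 * β * ((j : ℝ) + 1 - ζ) / ϑ = hi at *
  generalize 4 * β * (1 - 2 * ζ) / ϑ = g at *
  have hc : ((Finset.Icc ⌈lo⌉₊ ⌊hi⌋₊ ×ˢ Finset.range (n - (2 * R + D))).card : ℝ) ≤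
      (((Finset.range n ×ˢ Finset.range n).filter fun p => R ≤ p.1 ∧ p.2 + R < n ∧
        lo ≤ (p.2 : ℝ) + 1 - p.1 ∧ (p.2 : ℝ) + 1 - p.1 ≤ hi).card : ℝ) := by
    refine Nat.cast_le.mpr ?_
    apply Finset.card_le_card_of_injOn (fun p => (R + p.2, R + p.2 + p.1 - 1))
    · rintro ⟨d, i⟩ hp
      rw [Finset.mem_coe, Finset.mem_product, Finset.mem_Icc, Finset.mem_range] at hp
      obtain ⟨⟨ha, hb⟩, hi'⟩ := hp
      have ha1 : lo ≤ d := Nat.ceil_le.mp ha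
      have hb1 : (d : ℝ) ≤ hi := (Nat.le_floor_iff hhi0.le).mp hb
      have hd1 : 1 ≤ d := by
        have h2 : (0 : ℝ) < d := lt_of_lt_of_le hlo ha1
        have h3 : 0 < d := by exact_mod_cast h2
        omega
      have hd2 : d ≤ D := by
        have h2 : (d : ℝ) ≤ D := hb1.trans hhi
        exact_mod_cast h2
      dsimp only at ha hb hi' ⊢
      have e1 : (((R + i + d - 1 : ℕ) : ℝ)) + 1 - ((R + i : ℕ) : ℝ) = d := by
        rw [Nat.cast_sub (by omega)]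
        push_cast
        ring
      rw [Finset.mem_coe, Finset.mem_filter, Finset.mem_product, Finset.mem_range,
        Finset.mem_range]
      refine ⟨⟨?_, ?_⟩, ?_, ?_, ?_, ?_⟩
      · dsimp only
        omega
      · dsimp only
        omega
      · dsimp only
        omega
      · dsimp only
        omega
      · dsimp only
        rw [e1]
        exact ha1
      · dsimp only
        rw [e1]
        exact hb1
    · rintro ⟨d, i⟩ hp ⟨d', i'⟩ hp' he
      rw [Finset.mem_coe, Finset.mem_product, Finset.mem_Icc, Finset.mem_range] at hp hp'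
      have hd : ∀ e : ℕ, ⌈lo⌉₊ ≤ e → 1 ≤ e := by
        intro e he
        have h2 : (0 : ℝ) < e := lt_of_lt_of_le hlo (Nat.ceil_le.mp he)
        have h3 : 0 < e := by exact_mod_cast h2
        omega
      have h3 := hd d hp.1.1
      have h4 := hd d' hp'.1.1
      dsimp only at he
      rw [Prod.mk.injEq] at he
      rw [Prod.mk.injEq]
      omega
  refine le_trans ?_ hc
  rw [Finset.card_product, Nat.card_Icc, Finset.card_range, Nat.cast_mul]
  have h2 : ((n - (2 * R + D) : ℕ) : ℝ) = (n : ℝ) - 2 * R - D := by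
    rw [Nat.cast_sub hn]
    push_cast
    ring
  have h3 : g - 1 ≤ ((⌊hi⌋₊ + 1 - ⌈lo⌉₊ : ℕ) : ℝ) := by
    have h4 : hi < ⌊hi⌋₊ + 1 := Nat.lt_floor_add_one hi
    have h5 : (⌈lo⌉₊ : ℝ) < lo + 1 := Nat.ceil_lt_add_one hlo.le
    have h6 : ((⌊hi⌋₊ + 1 : ℕ) : ℝ) ≤ ((⌊hi⌋₊ + 1 - ⌈lo⌉₊ : ℕ) : ℝ) + (⌈lo⌉₊ : ℝ) := by
      have h7 : ⌊hi⌋₊ + 1 ≤ (⌊hi⌋₊ + 1 - ⌈lo⌉₊) + ⌈lo⌉₊ := by omega
      exact_mod_cast h7
    push_cast at h6
    linarith
  rw [h2, mul_comm]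
  apply mul_le_mul_of_nonneg_right h3
  rw [← h2]
  exact Nat.cast_nonneg _

end Pool.Agent.H13.EX
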