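import Pool.Agent.H98.EX.BTargets

/-!
# The exact constant of the copolymer slope as `α → 1`: QTB, total moments of the base
(helper13, row QTB)
-/

set_option autoImplicit false

open MeasureTheory ProbabilityTheory Filter Topology
open scoped ENNReal
open Pool.Agent.H95 Pool.Agent.H95.Cop
open Pool.Agent.H96.Cop (ex pk)
open Pool.Agent.H99.CE (NX w0 w1 BX cq)
open Pool.Agent.H98.SLN (gl TS)
open Pool.Agent.H98.EX

namespace Pool.Agent.H13.EX

theorem expsum (κ : ℝ) (h : 0 < κ) (n : ℕ) :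
    ∑ b ∈ Finset.range n, Real.exp (-(κ * ((b : ℝ) + 1))) ≤ 1 / κ := by
  have key : ∀ n : ℕ, κ * ∑ b ∈ Finset.range n, Real.exp (-(κ * ((b : ℝ) + 1))) ≤
      1 - Real.exp (-(κ * (n : ℝ))) := by
    intro n
    induction n with
    | zero => simp
    | succ n ih =>
      rw [Finset.sum_range_succ, mul_add]
      have h1 : Real.exp (-(κ * (n : ℝ))) = Real.exp (-(κ * ((n : ℝ) + 1))) * Real.exp κ := by
        rw [← Real.exp_add]; congr 1; ring
      have h2 : κ + 1 ≤ Real.exp κ := Real.add_one_le_exp κ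
      have h3 : 0 < Real.exp (-(κ * ((n : ℝ) + 1))) := Real.exp_pos _
      push_cast
      nlinarith [mul_le_mul_of_nonneg_left h2 h3.le]
  rw [le_div_iff₀ h, mul_comm]
  have h1 := key n
  have h2 := Real.exp_pos (-(κ * (n : ℝ)))
  linarith

theorem expsum1 (κ : ℝ) (h : 0 < κ) (n : ℕ) :
    ∑ b ∈ Finset.range n, (b : ℝ) * Real.exp (-(κ * ((b : ℝ) + 1))) ≤ 1 / κ ^ 2 := by
  have key : ∀ n : ℕ, κ ^ 2 * ∑ b ∈ Finset.range n, (b : ℝ) * Real.exp (-(κ * ((b : ℝ) + 1))) ≤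
      1 - (1 + κ * n) * Real.exp (-(κ * (n : ℝ))) := by
    intro n
    induction n with
    | zero => simp
    | succ n ih =>
      rw [Finset.sum_range_succ, mul_add]
      have h1 : Real.exp (-(κ * (n : ℝ))) = Real.exp (-(κ * ((n : ℝ) + 1))) * Real.exp κ := by
        rw [← Real.exp_add]; congr 1; ring
      have h2 : κ + 1 ≤ Real.exp κ := Real.add_one_le_exp κ
      have h3 : 0 < Real.exp (-(κ * ((n : ℝ) + 1))) := Real.exp_pos _
      have h4 : (0 : ℝ) ≤ 1 + κ * n := by positivity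
      rw [h1] at ih
      push_cast
      have h5 := mul_le_mul_of_nonneg_left h2 (mul_nonneg h3.le h4)
      nlinarith [h5]
  rw [le_div_iff₀ (by positivity), mul_comm]
  have h1 := key n
  have h2 := Real.exp_pos (-(κ * (n : ℝ)))
  have h4 : (0 : ℝ) ≤ 1 + κ * n := by positivity
  have h5 := mul_nonneg h4 h2.le
  linarith

theorem rp {X δ θ p : ℝ} (hX : 1 ≤ X) (h0 : 0 < δ) (h1 : δ ≤ 1) (ht : 1 / 2 ≤ θ) (hp : θ ≤ p) :
    (X * δ) ^ θ ≤ X ^ p * Real.sqrt δ := by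
  rw [Real.mul_rpow (by linarith) h0.le, Real.sqrt_eq_rpow]
  exact mul_le_mul (Real.rpow_le_rpow_of_exponent_le hX hp)
    (Real.rpow_le_rpow_of_exponent_ge h0 h1 ht) (Real.rpow_nonneg h0.le _)
    (Real.rpow_nonneg (by linarith) _)

theorem r16 : (16 : ℝ) ^ ((3 : ℝ) / 4) = 8 := by
  rw [show (16 : ℝ) = (2 : ℝ) ^ (4 : ℝ) by norm_num, ← Real.rpow_mul (by norm_num)]
  norm_num

theorem r8 : (8 : ℝ) ^ ((2 : ℝ) / 3) = 4 := by
  rw [show (8 : ℝ) = (2 : ℝ) ^ (3 : ℝ) by norm_num, ← Real.rpow_mul (by norm_num)]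
  norm_num

theorem tsum_bd (f : ℕ → ℝ≥0∞) (Y u N : ℝ) (hu : 0 < u) (hN : 0 ≤ N)
    (h : ∀ n, ∑ i ∈ Finset.range n, f i ≤ ENNReal.ofReal Y) (hY : Y ≤ N * u) :
    (∑' i, f i) / ENNReal.ofReal u ≤ ENNReal.ofReal N := by
  apply ENNReal.div_le_of_le_mul
  rw [← ENNReal.ofReal_mul hN, ENNReal.tsum_eq_iSup_nat]
  exact iSup_le fun n => (h n).trans (ENNReal.ofReal_le_ofReal hY)

/-- the basic smallness -/
theorem zb {K : PMF ℕ} {ν : Measure ℝ} {α c δ r ϑ ε τ ω s : ℝ} {k q : ℕ}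
    (h : BC K ν α c δ r ϑ ε τ ω s k q) : 0 < VH K k ϑ ∧ 0 < c * (k : ℝ) ^ (-(1 + α)) ∧
    VH K k ϑ * (c * (k : ℝ) ^ (-(1 + α))) ≤ 113 / 100 * δ := by
  have hk : (0 : ℝ) < k := by
    have h1 := h.kϑ
    have h2 := h.ϑ0
    by_contra hc
    have h3 : (k : ℝ) ≤ 0 := not_lt.mp hc
    nlinarith
  have hc := h.rx.rg.c0
  have hδ := h.rx.rg.δ0
  have hr0 := h.rx.r0
  have hr : r ≤ 1 / 512 := by linarith [h.rϑ, h.ϑ1]
  have hϑ0 := h.ϑ0
  have hϑ1 := h.ϑ1
  have hv := h.rx.v1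
  have hkp : 0 < (k : ℝ) ^ (1 - α) := Real.rpow_pos_of_pos hk _
  have hT : 0 < TS K k := by
    by_contra hc'
    have h3 : TS K k ≤ 0 := not_lt.mp hc'
    have h4 : 0 < c * (k : ℝ) ^ (1 - α) := by positivity
    have h5 : (1 + r) * (δ * TS K k) ≤ 0 :=
      mul_nonpos_of_nonneg_of_nonpos (by linarith) (mul_nonpos_of_nonneg_of_nonpos hδ.le h3)
    linarith
  have hV : 0 < VH K k ϑ := by
    unfold VH
    positivity
  refine ⟨hV, mul_pos hc (Real.rpow_pos_of_pos hk _), ?_⟩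
  have e1 : (k : ℝ) ^ 2 * (k : ℝ) ^ (-(1 + α)) = (k : ℝ) ^ (1 - α) := by
    rw [← Real.rpow_natCast, ← Real.rpow_add hk]
    congr 1
    push_cast
    ring
  have e2 : VH K k ϑ * (c * (k : ℝ) ^ (-(1 + α))) =
      (1 + 8 * ϑ) * (c * (k : ℝ) ^ (1 - α)) / TS K k := by
    rw [← e1]
    unfold VH
    ring
  rw [e2, div_le_iff₀ hT]
  have h6 : (1 + 8 * ϑ) * (1 + r) ≤ 113 / 100 := by nlinarith
  calc (1 + 8 * ϑ) * (c * (k : ℝ) ^ (1 - α)) ≤ (1 + 8 * ϑ) * ((1 + r) * (δ * TS K k)) :=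
        mul_le_mul_of_nonneg_left hv (by linarith)
    _ = ((1 + 8 * ϑ) * (1 + r)) * (δ * TS K k) := by ring
    _ ≤ 113 / 100 * (δ * TS K k) := mul_le_mul_of_nonneg_right h6 (by positivity)
    _ = _ := by ring

/-- the products of the units -/
theorem unb {K : PMF ℕ} {ν : Measure ℝ} {α c δ r ϑ ε τ ω s : ℝ} {k q : ℕ}
    (h : BC K ν α c δ r ϑ ε τ ω s k q) (hθ : (1 + α) * te α s = 1 + s)
    (h1 : 1 / 2 ≤ te α s) (h2 : te α s ≤ 5 / 8) :
    (Real.exp 2 * VH K k ϑ) ^ te α s * (c * (k : ℝ) ^ (-(1 + α))) ^ te α s ≤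
      8 * Real.sqrt δ ∧
    (Real.exp 2 * VH K k ϑ) ^ te α s ≤
      5 * Real.sqrt δ * ((k : ℝ) ^ (1 + s) * cq c ϑ ^ (-te α s)) := by
  obtain ⟨hV, hG, hZ⟩ := zb h
  have hδ0 := h.rx.rg.δ0
  have hδ1 : δ ≤ 1 := h.rx.rg.δ1.trans (by norm_num)
  have hϑ0 := h.ϑ0
  have hϑ1 := h.ϑ1
  have hc := h.rx.rg.c0
  have hk : (0 : ℝ) < k := by
    by_contra hc
    have h3 : (k : ℝ) ≤ 0 := not_lt.mp hc
    nlinarith [h.kϑ]
  have he : Real.exp 2 ≤ 74 / 10 := by
    have h3 : Real.exp 2 = Real.exp 1 * Real.exp 1 := by rw [← Real.exp_add]; norm_num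
    have h4 := Real.exp_one_lt_d9
    have h5 := Real.exp_pos 1
    rw [h3]
    nlinarith
  have he0 := Real.exp_pos 2
  have hθ0 : 0 < te α s := by linarith
  have hs := Real.sqrt_nonneg δ
  constructor
  · rw [← Real.mul_rpow (by positivity) hG.le]
    calc (Real.exp 2 * VH K k ϑ * (c * (k : ℝ) ^ (-(1 + α)))) ^ te α s
        ≤ (16 * δ) ^ te α s := by
          apply Real.rpow_le_rpow (by positivity) _ hθ0.le
          calc Real.exp 2 * VH K k ϑ * (c * (k : ℝ) ^ (-(1 + α)))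
              = Real.exp 2 * (VH K k ϑ * (c * (k : ℝ) ^ (-(1 + α)))) := by ring
            _ ≤ 74 / 10 * (113 / 100 * δ) := mul_le_mul he hZ (by positivity) (by norm_num)
            _ ≤ 16 * δ := by nlinarith
      _ ≤ (16 : ℝ) ^ ((3 : ℝ) / 4) * Real.sqrt δ :=
          rp (by norm_num) hδ0 hδ1 h1 (by linarith)
      _ = 8 * Real.sqrt δ := by rw [r16]
  · have hcq : 0 < cq c ϑ := by
      unfold cq
      positivity
    have e1 : (k : ℝ) ^ (1 + s) = ((k : ℝ) ^ (1 + α)) ^ te α s := by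
      rw [← Real.rpow_mul hk.le, hθ]
    have e2 : (k : ℝ) ^ (1 + s) * cq c ϑ ^ (-te α s) =
        ((cq c ϑ * (k : ℝ) ^ (-(1 + α))) ^ te α s)⁻¹ := by
      rw [Real.mul_rpow hcq.le (Real.rpow_nonneg hk.le _), mul_inv, Real.rpow_neg hcq.le,
        Real.rpow_neg hk.le, Real.inv_rpow (Real.rpow_nonneg hk.le _), inv_inv, e1]
      ring
    have hD : 0 < (cq c ϑ * (k : ℝ) ^ (-(1 + α))) ^ te α s :=
      Real.rpow_pos_of_pos (mul_pos hcq (Real.rpow_pos_of_pos hk _)) _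
    rw [e2, ← div_eq_mul_inv, le_div_iff₀ hD, ← Real.mul_rpow (by positivity) (by positivity)]
    calc (Real.exp 2 * VH K k ϑ * (cq c ϑ * (k : ℝ) ^ (-(1 + α)))) ^ te α s
        ≤ (8 * δ) ^ te α s := by
          apply Real.rpow_le_rpow (by positivity) _ hθ0.le
          have e3 : Real.exp 2 * VH K k ϑ * (cq c ϑ * (k : ℝ) ^ (-(1 + α))) =
              (Real.exp 2 * ((1 + ϑ) ^ 2 / 2)) * (VH K k ϑ * (c * (k : ℝ) ^ (-(1 + α)))) := by
            unfold cq
            ring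
          rw [e3]
          have h6 : (1 + ϑ) ^ 2 / 2 ≤ 6 / 10 := by nlinarith
          calc _ ≤ (74 / 10 * (6 / 10)) * (113 / 100 * δ) :=
                mul_le_mul (mul_le_mul he h6 (by positivity) (by norm_num)) hZ (by positivity)
                  (by norm_num)
            _ ≤ 8 * δ := by nlinarith
      _ ≤ (8 : ℝ) ^ ((2 : ℝ) / 3) * Real.sqrt δ := rp (by norm_num) hδ0 hδ1 h1 (by linarith)
      _ = 4 * Real.sqrt δ := by rw [r8]
      _ ≤ 5 * Real.sqrt δ := by nlinarith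

theorem pf_QTB (hPFM : Pool.Agent.H99.CE.T_PFM) (hUM2 : T_UM2) (hQB1 : T_QB1) (hNTM : T_NTM)
    (hLKX : T_LKX) (hNAX : T_NAX) : T_QTB := by
  intro K ν α c δ r ϑ ε τ ω s k q h n0 e Nb hn0 he hc1 hc2 hc3
  haveI := h.eg.prob
  have hδ0 := h.rx.rg.δ0
  have hδ1 : δ ≤ 1 := h.rx.rg.δ1.trans (by norm_num)
  have hδ2 : δ ≤ 1 / 2 := h.rx.rg.δ1.trans (by norm_num)
  have hα : 1 / 2 ≤ α := by linarith [h.rx.rg.α0]
  have hϑ0 := h.ϑ0
  have hϑ1 := h.ϑ1
  have hc := h.rx.rg.c0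
  have hk : (0 : ℝ) < k := by
    by_contra hc
    have h3 : (k : ℝ) ≤ 0 := not_lt.mp hc
    nlinarith [h.kϑ]
  have hk1 : 1 ≤ k := by
    have h1 : 0 < k := by exact_mod_cast hk
    omega
  have hkB : k ≤ n0 * k := Nat.le_mul_of_pos_left k (by omega)
  have hn0R : (1 : ℝ) ≤ n0 := by exact_mod_cast hn0
  obtain ⟨hue, -, -, -, -, hθ, hθ0, -⟩ :=
    hNAX e α s c ϑ k (n0 * k) 1 hα h.s0 he hc hϑ0 hk1 hkB le_rfl
  have ht1 := h.t1
  have ht2 : te α s ≤ 5 / 8 := by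
    refine le_trans ?_ h.t2
    unfold te
    have h1 : (0 : ℝ) < 1 + α := by linarith
    gcongr
    linarith [h.s0]
  obtain ⟨hAG, hAD⟩ := unb h hθ ht1 ht2
  obtain ⟨hV, hGp, -⟩ := zb h
  obtain ⟨hg1, hg2, hlk⟩ := hLKX K ν α c δ r ϑ ε τ ω s k q h n0 hn0
  have hκ := h.κ1
  have hNT := hNTM K ν α c δ r ϑ ε τ ω s k q h (te α s) ht1 ht2
  have hlk' := hlk (te α s) ht1 ht2 (by rw [hθ]; linarith [h.s0])
  have hLa : 0 ≤ La ϑ n0 := by
    unfold La
    have h1 : 0 ≤ Real.log n0 := Real.log_nonneg hn0R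
    have h2 : 0 ≤ Real.log (16 / ϑ) := Real.log_nonneg (by
      rw [le_div_iff₀ hϑ0]
      linarith)
    linarith
  have hs := Real.sqrt_nonneg δ
  have hDp : 0 < (k : ℝ) ^ (1 + s) * cq c ϑ ^ (-te α s) := by
    have hcq : 0 < cq c ϑ := by
      unfold cq
      positivity
    exact mul_pos (Real.rpow_pos_of_pos hk _) (Real.rpow_pos_of_pos hcq _)
  have hueq : ue e α s c ϑ k (n0 * k) =
      e * n0 * ((k : ℝ) ^ (1 + s) * cq c ϑ ^ (-te α s)) := by
    unfold ue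
    rw [Real.rpow_add hk, Real.rpow_one]
    push_cast
    ring
  set A : ℝ := (Real.exp 2 * VH K k ϑ) ^ te α s with hA
  set G : ℝ := (c * (k : ℝ) ^ (-(1 + α))) ^ te α s with hG
  set κ : ℝ := kap ϑ ε (te α s) τ δ with hκd
  set D : ℝ := (k : ℝ) ^ (1 + s) * cq c ϑ ^ (-te α s) with hD
  set S : ℝ := Real.sqrt δ with hS
  have hA0 : 0 ≤ A := Real.rpow_nonneg (mul_nonneg (Real.exp_pos _).le hV.le) _
  have hG0 : 0 ≤ G := Real.rpow_nonneg hGp.le _
  have hL1 : 0 ≤ 2 * (n0 : ℝ) + 40 / ϑ := by positivity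
  have hfn : ∀ b, fn K k ν (te α s) b ≤
      ENNReal.ofReal (4 * (A * Real.exp (-(κ * ((b : ℝ) + 1))))) := by
    intro b
    unfold fn
    calc _ ≤ ∑ p : Bool, ∑ r : Bool, ENNReal.ofReal (A * Real.exp (-(κ * ((b : ℝ) + 1)))) :=
          Finset.sum_le_sum fun p _ => Finset.sum_le_sum fun r _ => hNT p r b
      _ = _ := by
        rw [ENNReal.ofReal_mul (by norm_num : (0 : ℝ) ≤ 4)]
        simp only [Finset.sum_const, Finset.card_univ, Fintype.card_bool, nsmul_eq_mul]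
        rw [← mul_assoc]
        norm_num
  have hf0 : ∀ n, ∑ i ∈ Finset.range n, fn K k ν (te α s) i ≤ ENNReal.ofReal (4 * A / κ) := by
    intro n
    calc _ ≤ ∑ i ∈ Finset.range n, ENNReal.ofReal (4 * (A * Real.exp (-(κ * ((i : ℝ) + 1))))) :=
          Finset.sum_le_sum fun i _ => hfn i
      _ = ENNReal.ofReal (∑ i ∈ Finset.range n, 4 * (A * Real.exp (-(κ * ((i : ℝ) + 1))))) := by
          rw [ENNReal.ofReal_sum_of_nonneg]
          intro i _
          positivity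
      _ ≤ _ := by
          apply ENNReal.ofReal_le_ofReal
          rw [← Finset.mul_sum, ← Finset.mul_sum]
          have h1 := mul_le_mul_of_nonneg_left (expsum κ hκ n) hA0
          have h2 : 4 * A / κ = 4 * (A * (1 / κ)) := by ring
          rw [h2]
          linarith
  have hf1 : ∀ n, ∑ i ∈ Finset.range n, (i : ℝ≥0∞) * fn K k ν (te α s) i ≤
      ENNReal.ofReal (4 * A / κ ^ 2) := by
    intro n
    calc _ ≤ ∑ i ∈ Finset.range n,
          ENNReal.ofReal (4 * (A * ((i : ℝ) * Real.exp (-(κ * ((i : ℝ) + 1)))))) := by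
          apply Finset.sum_le_sum
          intro i _
          calc (i : ℝ≥0∞) * fn K k ν (te α s) i ≤
              ENNReal.ofReal (i : ℝ) * ENNReal.ofReal (4 * (A * Real.exp (-(κ * ((i : ℝ) + 1))))) := by
                rw [ENNReal.ofReal_natCast]
                exact mul_le_mul_right (hfn i) _
            _ = _ := by
                rw [← ENNReal.ofReal_mul (Nat.cast_nonneg i)]
                congr 1
                ring
      _ = ENNReal.ofReal (∑ i ∈ Finset.range n,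
          4 * (A * ((i : ℝ) * Real.exp (-(κ * ((i : ℝ) + 1)))))) := by
          rw [ENNReal.ofReal_sum_of_nonneg]
          intro i _
          positivity
      _ ≤ _ := by
          apply ENNReal.ofReal_le_ofReal
          rw [← Finset.mul_sum, ← Finset.mul_sum]
          have h1 := mul_le_mul_of_nonneg_left (expsum1 κ hκ n) hA0
          have h2 : 4 * A / κ ^ 2 = 4 * (A * (1 / κ ^ 2)) := by ring
          rw [h2]
          linarith
  have hfl : ENNReal.ofReal (4 * A / κ) * ENNReal.ofReal (G * La ϑ n0) ≤ 4⁻¹ := by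
    rw [← ENNReal.ofReal_mul (by positivity)]
    have h1 : 4 * A / κ * (G * La ϑ n0) ≤ 1 / 4 := by
      refine le_trans ?_ hc1
      have h2 : 4 * A / κ * (G * La ϑ n0) = 4 * (A * G) * La ϑ n0 / κ := by ring
      rw [h2]
      apply div_le_div_of_nonneg_right _ hκ.le
      apply mul_le_mul_of_nonneg_right _ hLa
      linarith
    calc _ ≤ ENNReal.ofReal (1 / 4) := ENNReal.ofReal_le_ofReal h1
      _ = 4⁻¹ := by
        rw [one_div, ENNReal.ofReal_inv_of_pos (by norm_num)]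
        norm_num
  obtain ⟨hy0, hy1⟩ := hUM2 K ν k (n0 * k) (gx α c k n0) (gy α c k) (te α s)
    (ENNReal.ofReal (4 * A / κ)) (ENNReal.ofReal (G * La ϑ n0)) hk1 hkB hθ0 (by linarith)
    hg1 hg2 hf0 (fun n => (hlk' n).1) hfl
  have hy1' := hy1 (ENNReal.ofReal (4 * A / κ ^ 2))
    (ENNReal.ofReal (G * (2 * n0 + 40 / ϑ))) hf1 (fun n => (hlk' n).2)
  obtain ⟨hb0, hb1⟩ := hQB1 K ν k n0 (te α s) hk1 hn0 hθ0 (by linarith) _ _ hy0 hy1'
  have hNb : 0 ≤ Nb := le_trans (by positivity) hc2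
  have hmain : 40 * S * D * n0 / κ ≤ Nb * ue e α s c ϑ k (n0 * k) := by
    rw [hueq]
    calc 40 * S * D * n0 / κ = 40 * S / (κ * e) * (e * n0 * D) := by
          field_simp
      _ ≤ Nb * (e * n0 * D) := mul_le_mul_of_nonneg_right hc2 (by positivity)
  constructor
  · unfold QTe
    refine tsum_bd _ (n0 * (2 * (4 * A / κ))) _ _ hue hNb (fun n => ?_) ?_
    · refine (hb0 n).trans (le_of_eq ?_)
      rw [ENNReal.ofReal_mul (Nat.cast_nonneg n0), ENNReal.ofReal_mul (by norm_num : (0 : ℝ) ≤ 2),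
        ENNReal.ofReal_natCast]
      norm_num
    · refine le_trans ?_ hmain
      have h1 : (n0 : ℝ) * (2 * (4 * A / κ)) = 8 * A * n0 / κ := by ring
      rw [h1]
      apply div_le_div_of_nonneg_right _ hκ.le
      apply mul_le_mul_of_nonneg_right _ (Nat.cast_nonneg n0)
      linarith
  · unfold QRe
    refine tsum_bd _ (2 * (4 * A / κ ^ 2 + (4 * A / κ) ^ 2 * (G * (2 * n0 + 40 / ϑ)))) _ _ hue hNb
      (fun n => ?_) ?_
    · refine (hb1 n).trans (le_of_eq ?_)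
      rw [ENNReal.ofReal_mul (by norm_num : (0 : ℝ) ≤ 2),
        ENNReal.ofReal_add (by positivity) (by positivity),
        ENNReal.ofReal_mul (by positivity : (0 : ℝ) ≤ (4 * A / κ) ^ 2),
        ENNReal.ofReal_pow (by positivity)]
      norm_num
    · rw [hueq]
      have h1 : 2 * (4 * A / κ ^ 2 + (4 * A / κ) ^ 2 * (G * (2 * n0 + 40 / ϑ))) =
          8 * A / κ ^ 2 * (1 + 4 * (A * G) * (2 * n0 + 40 / ϑ)) := by
        field_simp
        ring
      rw [h1]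
      calc 8 * A / κ ^ 2 * (1 + 4 * (A * G) * (2 * n0 + 40 / ϑ))
          ≤ 8 * (5 * S * D) / κ ^ 2 * (1 + 4 * (8 * S) * (2 * n0 + 40 / ϑ)) := by
            gcongr
        _ = 40 * S / (κ ^ 2 * e * n0) * (1 + 32 * S * (2 * n0 + 40 / ϑ)) * (e * n0 * D) := by
            field_simp
            ring
        _ ≤ Nb * (e * n0 * D) := mul_le_mul_of_nonneg_right hc3 (by positivity)

end Pool.Agent.H13.EX
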